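import Mathlib
import Pool.Agent.Run7.h373.QD.Fin

/-!
# The Bateman-Horn formula for `F(m) + k` in every window of length `N^(1/(3d))`, for almost all `k`

Let `F` be an integer polynomial of degree `d ≥ 3` (for instance `F = x³`) whose leading coefficient is at most
`(log N)^C`; the other coefficients are arbitrary. For EVERY window `a < m ≤ a + H` of integers on which
`|F| ≤ N (log N)^C` (for a monic `F` with coefficients of the natural size this is `|m| ≤ N^(1/d)`) and whose length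
is only `H ≥ N^(1/(3d)) (log N)^B`, the number of the primes `F(m) + k` and the number of the primes `-(F(m) + k)`
with `m` in the window are given by the formula of Bateman and Horn with the constant truncated at any `z` between
`(log N)^B` and `N^(1/3)`, with a relative error `(log N)^(-U)`, for all but `N / (log N)^U` of the `|k| ≤ N`. For
`F = x³` there is no local obstruction, and the windows have length `N^(1/9) (log N)^B`; in the earlier results on
`m³ + k` for almost all `k` the argument runs through an interval of length about `N^(1/3)` (all `m ≤ N^(1/3)`), or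
through a window next to the zero `-k^(1/3)`.

Proof. The second moment over `k` of the sum over the window of the difference between the primes and their sieve
model is at most an integral over the circle of `|S|² |W|²`, where `S` is the exponential sum of that difference and
`W` the sum of `e(α F(m))` over the window. If `W` is large at `α`, an inverse theorem for Weyl sums puts `α` in an
arc of width `(log N)^B / H^d` at a rational number with a small denominator. On these arcs Gallagher's lemma leads to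
the primes minus their model, twisted by `e(a n / q)`, in almost all intervals of length `H^d / (log N)^B ≥ N^(1/3)`;
these are estimated by Heath-Brown's identity, mean values of Dirichlet polynomials twisted by characters, and a
zero-free region. The model is summed by the fundamental lemma of the sieve on intervals on which `F` is monotone, and
the tails of the local products are small for almost all `k`, uniformly in `F`, by a dual large sieve argument.
-/

set_option autoImplicit false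

namespace Pool.Agent.Results.MP_4d57ea_nt.EveryWindow

open Finset
open Polynomial (X)
open scoped Polynomial

/-- the number of residues `a` modulo `p` such that `p` divides `F(a) + k` -/
def rho (F : ℤ[X]) (k : ℤ) (p : ℕ) : ℕ := #((range p).filter (fun a : ℕ => (p : ℤ) ∣ F.eval (a : ℤ) + k))

/-- the product of `(p - rho(p)) / (p - 1)` over the primes `p ≤ z` -/
noncomputable def S (F : ℤ[X]) (k : ℤ) (z : ℕ) : ℝ :=
  ∏ p ∈ (range (z + 1)).filter Nat.Prime, ((p : ℝ) - rho F k p) / ((p : ℝ) - 1)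

/-- the number of the integers `a < m ≤ b` such that `s (F(m) + k)` is a (positive) prime -/
noncomputable def P (F : ℤ[X]) (s k a b : ℤ) : ℕ := #((Ioc a b).filter (fun m : ℤ => Nat.Prime (s * (F.eval m + k)).toNat))

/-- the sum of `1 / log (s (F(m) + k))` over the integers `a < m ≤ b` with `s (F(m) + k) ≥ 2` -/
noncomputable def M (F : ℤ[X]) (s k a b : ℤ) : ℝ :=
  ∑ m ∈ (Ioc a b).filter (fun m : ℤ => 2 ≤ s * (F.eval m + k)), 1 / Real.log ((s * (F.eval m + k) : ℤ) : ℝ)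

lemma rho_eq (F : ℤ[X]) (k : ℤ) (p : ℕ) : rho F k p = Pool.Agent.TH204.WR.rho F k p := rfl

lemma rho_lt (F : ℤ[X]) (k : ℤ) (p : ℕ) (hp : p.Prime) (h : ∃ m : ℤ, ¬ (p : ℤ) ∣ F.eval m + k) :
    Pool.Agent.TH204.WR.rho F k p < p := by
  obtain ⟨m, hm⟩ := h
  have hp0 : (0 : ℤ) < p := by exact_mod_cast hp.pos
  unfold Pool.Agent.TH204.WR.rho
  have hlt : (m % p).toNat < p := by
    have h1 := Int.emod_nonneg m hp0.ne'
    have h2 := Int.emod_lt_of_pos m hp0
    omega
  have hcast : (((m % p).toNat : ℕ) : ℤ) = m % p := Int.toNat_of_nonneg (Int.emod_nonneg m hp0.ne')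
  have hss : (range p).filter (fun a : ℕ => (p : ℤ) ∣ F.eval (a : ℤ) + k) ⊂ range p := by
    rw [filter_ssubset]
    refine ⟨(m % p).toNat, mem_range.2 hlt, ?_⟩
    intro hd
    rw [hcast] at hd
    apply hm
    have h1 : (p : ℤ) ∣ m - m % p := Int.dvd_self_sub_emod
    have h2 : (m - m % p) ∣ F.eval m - F.eval (m % p) := Polynomial.sub_dvd_eval_sub m (m % p) F
    have h3 := dvd_add (h1.trans h2) hd
    have e : F.eval m - F.eval (m % p) + (F.eval (m % p) + k) = F.eval m + k := by ring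
    rwa [e] at h3
  have := card_lt_card hss
  rwa [card_range] at this

lemma S_eq (F : ℤ[X]) (k : ℤ) (z : ℕ) : S F k z = Pool.Agent.TH204.WR.hh F k z := by
  unfold S Pool.Agent.TH204.WR.hh Pool.Agent.H373R2.T7.Vz
  rw [← prod_inv_distrib, ← prod_mul_distrib]
  have hs : (range (z + 1)).filter Nat.Prime = Pool.Agent.H373R2.T7.pz z := by
    ext p
    unfold Pool.Agent.H373R2.T7.pz
    rw [mem_filter, mem_filter, mem_range, mem_Icc]
    constructor
    · rintro ⟨h1, h2⟩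
      exact ⟨⟨h2.one_le, by omega⟩, h2⟩
    · rintro ⟨⟨h1, h3⟩, h2⟩
      exact ⟨by omega, h2⟩
  rw [hs]
  apply prod_congr rfl
  intro p hp
  unfold Pool.Agent.H373R2.T7.pz at hp
  have hp2 := (mem_filter.1 hp).2.two_le
  have hpr : (2 : ℝ) ≤ p := by exact_mod_cast hp2
  have h1 : (p : ℝ) ≠ 0 := by linarith
  have h2 : (p : ℝ) - 1 ≠ 0 := by linarith
  have h3 : (1 : ℝ) - 1 / p ≠ 0 := by
    rw [one_sub_div h1]
    exact div_ne_zero h2 h1
  rw [rho_eq]
  field_simp

/-- the integers of a window -/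
lemma win_sum {α : Type*} [AddCommMonoid α] (a : ℤ) (H : ℕ) (g : ℤ → α) :
    ∑ m ∈ Ioc a (a + H), g m = ∑ i ∈ Ioc 0 H, g (a + (i : ℤ)) := by
  refine sum_nbij' (fun m => (m - a).toNat) (fun i => a + (i : ℤ)) ?_ ?_ ?_ ?_ ?_
  · intro m hm
    rw [mem_Ioc] at hm ⊢
    omega
  · intro i hi
    rw [mem_Ioc] at hi ⊢
    omega
  · intro m hm
    rw [mem_Ioc] at hm
    omega
  · intro i hi
    omega
  · intro m hm
    rw [mem_Ioc] at hm
    congr 1
    omega

lemma P_eq (F : ℤ[X]) (s k a : ℤ) (H : ℕ) : P F s k a (a + H) = Run7.h373.QD.pC s F k a H := by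
  unfold P Run7.h373.QD.pC
  rw [card_filter, card_filter, win_sum]
  rfl

lemma M_eq (F : ℤ[X]) (s k a : ℤ) (H : ℕ) : M F s k a (a + H) = Run7.h373.QD.lS s F k a H := by
  unfold M Run7.h373.QD.lS
  rw [sum_filter, sum_filter, win_sum]
  refine sum_congr rfl fun i _ => ?_
  by_cases h : 2 ≤ s * (F.eval (a + (i : ℤ)) + k)
  · rw [if_pos h, if_pos (show 2 ≤ s * (Run7.h373.QD.vv F a i + k) from h)]
    unfold Pool.Agent.TH892.SW.wt Run7.h373.QD.vv
    have h1 : (((s * (F.eval (a + (i : ℤ)) + k)).toNat : ℕ) : ℤ) = s * (F.eval (a + (i : ℤ)) + k) :=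
      Int.toNat_of_nonneg (by omega)
    have h2 : (((s * (F.eval (a + (i : ℤ)) + k)).toNat : ℕ) : ℝ) = ((s * (F.eval (a + (i : ℤ)) + k) : ℤ) : ℝ) := by
      rw [← Int.cast_natCast, h1]
    rw [h2]
  · rw [if_neg h, if_neg (show ¬ 2 ≤ s * (Run7.h373.QD.vv F a i + k) from h)]

/-- the general statement -/
theorem main (d : ℕ) (hd : 3 ≤ d) (U C : ℕ) : ∃ B X₀ : ℕ, ∀ N : ℕ, X₀ ≤ N → ∀ F : ℤ[X], F.natDegree = d →
    |(F.leadingCoeff : ℝ)| ≤ Real.log N ^ C → ∀ (a : ℤ) (H : ℕ),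
    (N : ℝ) ^ (1 / (3 * (d : ℝ))) * Real.log N ^ B ≤ H →
    (∀ m ∈ Ioc a (a + H), |((F.eval m : ℤ) : ℝ)| ≤ N * Real.log N ^ C) →
    ∃ Bad ⊆ Icc (-(N : ℤ)) N, (#Bad : ℝ) ≤ N / Real.log N ^ U ∧
    ∀ k ∈ Icc (-(N : ℤ)) N, k ∉ Bad → (∀ p : ℕ, p.Prime → ∃ m : ℤ, ¬ (p : ℤ) ∣ F.eval m + k) →
    ∀ z : ℕ, Real.log N ^ B ≤ z → z ^ 3 ≤ N → 0 < S F k z ∧
    ∀ s : ℤ, (s = 1 ∨ s = -1) →
      |(P F s k a (a + H) : ℝ) - S F k z * M F s k a (a + H)| ≤ S F k z * H / Real.log N ^ U := by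
  obtain ⟨B, X₀, h0⟩ := Run7.h373.QD.final d (by omega) U C
  refine ⟨B, X₀, fun N hN F hF hFl a H hH hv => ?_⟩
  obtain ⟨Bad, k1, k2, k3⟩ := h0 N hN F hF hFl a H hH (by
    intro i hi
    rw [mem_Ioc] at hi
    exact hv (a + i) (by rw [mem_Ioc]; omega))
  refine ⟨Bad, k1, k2, fun k hk hkB hadm z hz1 hz2 => ?_⟩
  obtain ⟨m1, m2⟩ := k3 k hk hkB (fun p hp => rho_lt F k p hp (hadm p hp)) z hz1 hz2
  rw [S_eq]
  refine ⟨m1, fun s hs => ?_⟩
  rw [P_eq, M_eq]
  exact m2 s hs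

/-- no local obstruction for cubes -/
lemma cube_adm (k : ℤ) (p : ℕ) (hp : p.Prime) : ∃ m : ℤ, ¬ (p : ℤ) ∣ (X ^ 3 : ℤ[X]).eval m + k := by
  by_cases h : (p : ℤ) ∣ k
  · refine ⟨1, fun hc => ?_⟩
    rw [Polynomial.eval_pow, Polynomial.eval_X, one_pow] at hc
    have h1 : (p : ℤ) ∣ 1 := by
      have := dvd_sub hc h
      rwa [add_sub_cancel_right] at this
    have h2 : (p : ℤ) = 1 := by
      have := Int.le_of_dvd (by norm_num) h1
      have := hp.two_le
      omega
    have := hp.two_le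
    omega
  · refine ⟨0, fun hc => h ?_⟩
    rw [Polynomial.eval_pow, Polynomial.eval_X] at hc
    simpa using hc

/-- the case of the cubes -/
theorem cubes (U C : ℕ) : ∃ B X₀ : ℕ, ∀ N : ℕ, X₀ ≤ N → ∀ (a : ℤ) (H : ℕ),
    (N : ℝ) ^ ((1 : ℝ) / 9) * Real.log N ^ B ≤ H → |(a : ℝ)| + H ≤ (N : ℝ) ^ ((1 : ℝ) / 3) * Real.log N ^ C →
    ∃ Bad ⊆ Icc (-(N : ℤ)) N, (#Bad : ℝ) ≤ N / Real.log N ^ U ∧
    ∀ k ∈ Icc (-(N : ℤ)) N, k ∉ Bad → ∀ z : ℕ, Real.log N ^ B ≤ z → z ^ 3 ≤ N → 0 < S (X ^ 3) k z ∧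
      |(#((Ioc a (a + H)).filter (fun m : ℤ => Nat.Prime (m ^ 3 + k).toNat)) : ℝ) -
        S (X ^ 3) k z * ∑ m ∈ (Ioc a (a + H)).filter (fun m : ℤ => 2 ≤ m ^ 3 + k), 1 / Real.log ((m ^ 3 + k : ℤ) : ℝ)| ≤
      S (X ^ 3) k z * H / Real.log N ^ U := by
  obtain ⟨B, X₀, h0⟩ := main 3 le_rfl U (3 * C)
  obtain ⟨X₁, h1⟩ := Run7.h385.CR.ev_lge 1
  refine ⟨B, X₀ + X₁, fun N hN a H hH hv => ?_⟩
  have hL1 := h1 N (by omega)
  have hL0 : 0 < Real.log N := by linarith
  have hdeg : (X ^ 3 : ℤ[X]).natDegree = 3 := by rw [Polynomial.natDegree_X_pow]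
  have hlc : (X ^ 3 : ℤ[X]).leadingCoeff = 1 := Polynomial.leadingCoeff_X_pow 3
  obtain ⟨Bad, k1, k2, k3⟩ := h0 N (by omega) (X ^ 3) hdeg (by
      rw [hlc]
      simp only [Int.cast_one, abs_one]
      exact one_le_pow₀ hL1) a H (by
      refine le_trans (le_of_eq ?_) hH
      norm_num) (by
      intro m hm
      rw [mem_Ioc] at hm
      rw [Polynomial.eval_pow, Polynomial.eval_X]
      push_cast
      rw [abs_pow]
      have h2 : |(m : ℝ)| ≤ (N : ℝ) ^ ((1 : ℝ) / 3) * Real.log N ^ C := by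
        refine le_trans ?_ hv
        have h3 : (a : ℝ) ≤ m := by exact_mod_cast hm.1.le
        have h4 : (m : ℝ) ≤ a + H := by exact_mod_cast hm.2
        have h5 := neg_abs_le (a : ℝ)
        have h6 := le_abs_self (a : ℝ)
        have h7 : (0 : ℝ) ≤ H := Nat.cast_nonneg _
        rw [abs_le]
        constructor <;> linarith
      refine (pow_le_pow_left₀ (abs_nonneg _) h2 3).trans (le_of_eq ?_)
      rw [mul_pow, ← Real.rpow_natCast, ← Real.rpow_mul (Nat.cast_nonneg _), ← pow_mul, mul_comm C 3]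
      norm_num)
  refine ⟨Bad, k1, k2, fun k hk hkB z hz1 hz2 => ?_⟩
  obtain ⟨m1, m2⟩ := k3 k hk hkB (fun p hp => cube_adm k p hp) z hz1 hz2
  refine ⟨m1, ?_⟩
  have h2 := m2 1 (Or.inl rfl)
  unfold P M at h2
  simp only [Polynomial.eval_pow, Polynomial.eval_X, one_mul] at h2
  exact h2

/-- **The Bateman-Horn formula in every window of length `N^(1/(3d)) (log N)^B`, for almost all constant terms.**
(1) Let `d ≥ 3` and `U, C ≥ 0`. There are `B` and `X₀` such that the following holds for `N ≥ X₀`, for every integer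
polynomial `F` of degree `d` with a leading coefficient of absolute value at most `(log N)^C`, and for every window
`a < m ≤ a + H` of length `H ≥ N^(1/(3d)) (log N)^B` on which `|F| ≤ N (log N)^C`. For all but at most
`N / (log N)^U` of the integers `|k| ≤ N`: if no prime divides all the values of `F + k`, then for all `z` with
`(log N)^B ≤ z ≤ N^(1/3)` the product `S F k z` is positive and for `s = 1` and `s = -1` the number of the `m` of the
window with `s (F(m) + k)` prime differs from `S F k z ∑ 1 / log (s (F(m) + k))` (over the `m` of the window with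
`s (F(m) + k) ≥ 2`) by at most `S F k z H / (log N)^U`.
(2) The case `F = x³`, where every `k` is admissible: the windows of length `H ≥ N^(1/9) (log N)^B` in
`|m| ≤ N^(1/3) (log N)^C`. -/
theorem result :
    (∀ d : ℕ, 3 ≤ d → ∀ U C : ℕ, ∃ B X₀ : ℕ, ∀ N : ℕ, X₀ ≤ N → ∀ F : ℤ[X], F.natDegree = d →
      |(F.leadingCoeff : ℝ)| ≤ Real.log N ^ C → ∀ (a : ℤ) (H : ℕ),
      (N : ℝ) ^ (1 / (3 * (d : ℝ))) * Real.log N ^ B ≤ H →
      (∀ m ∈ Ioc a (a + H), |((F.eval m : ℤ) : ℝ)| ≤ N * Real.log N ^ C) →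
      ∃ Bad ⊆ Icc (-(N : ℤ)) N, (#Bad : ℝ) ≤ N / Real.log N ^ U ∧
      ∀ k ∈ Icc (-(N : ℤ)) N, k ∉ Bad → (∀ p : ℕ, p.Prime → ∃ m : ℤ, ¬ (p : ℤ) ∣ F.eval m + k) →
      ∀ z : ℕ, Real.log N ^ B ≤ z → z ^ 3 ≤ N → 0 < S F k z ∧
      ∀ s : ℤ, (s = 1 ∨ s = -1) →
        |(P F s k a (a + H) : ℝ) - S F k z * M F s k a (a + H)| ≤ S F k z * H / Real.log N ^ U) ∧
    (∀ U C : ℕ, ∃ B X₀ : ℕ, ∀ N : ℕ, X₀ ≤ N → ∀ (a : ℤ) (H : ℕ),
      (N : ℝ) ^ ((1 : ℝ) / 9) * Real.log N ^ B ≤ H → |(a : ℝ)| + H ≤ (N : ℝ) ^ ((1 : ℝ) / 3) * Real.log N ^ C →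
      ∃ Bad ⊆ Icc (-(N : ℤ)) N, (#Bad : ℝ) ≤ N / Real.log N ^ U ∧
      ∀ k ∈ Icc (-(N : ℤ)) N, k ∉ Bad → ∀ z : ℕ, Real.log N ^ B ≤ z → z ^ 3 ≤ N → 0 < S (X ^ 3) k z ∧
        |(#((Ioc a (a + H)).filter (fun m : ℤ => Nat.Prime (m ^ 3 + k).toNat)) : ℝ) -
          S (X ^ 3) k z * ∑ m ∈ (Ioc a (a + H)).filter (fun m : ℤ => 2 ≤ m ^ 3 + k), 1 / Real.log ((m ^ 3 + k : ℤ) : ℝ)| ≤
        S (X ^ 3) k z * H / Real.log N ^ U) :=
  ⟨main, cubes⟩

end Pool.Agent.Results.MP_4d57ea_nt.EveryWindow
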