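import Mathlib
import Pool.Agent.Run7.h17.PolyBDH

/-!
# Primes `m³ + c` (and other polynomials) in residue classes, for almost all `c`: few pairwise coprime bad moduli beyond the square root

For arbitrary nonconstant integer polynomials `F 1, ..., F k`, for instance `F 1 = X³`, and for almost all constant terms
`c 1, ..., c k` up to the size of the values: call a modulus `q` bad if the numbers `t ≤ x` such that all `F i (t) + c i`
are prime, counted with an arbitrary weight (for instance the weight `Λ(t)`), are not distributed among ALL the classes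
modulo `q` as predicted by the sieve by small primes, up to a total error of `x / log ^ U x`. Then every set of pairwise
coprime bad moduli up to `Q ≤ x / log ^ A x` has at most `log ^ A x (1 + Q ^ 2 / x)` elements.

Used: the starting files `Pool.Agent.H373R2.T7` (sieve model, energies of polynomial values), `Pool.Agent.TH823.Fam`,
`Pool.Agent.H560R3.GB` (von Mangoldt's function along families of small energy) and the large sieve of
`Pool.Agent.Helper112`. From Mathlib: `ArithmeticFunction.vonMangoldt` is von Mangoldt's function `Λ`; `Finset.Icc 1 x` are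
the integers from `1` to `x`, `Finset.range q` those from `0` to `q - 1`; `Int.toNat n = 0` for negative `n`, and `Λ(0) = 0`.
-/

set_option autoImplicit false

namespace Pool.Agent.Results.MP_4d57ea_nt.FewCoprimeBadModuli

open Finset Polynomial

/-- Von Mangoldt's function on the integers; it is `0` at the integers `n ≤ 0`. -/
noncomputable def vM (n : ℤ) : ℝ := ArithmeticFunction.vonMangoldt n.toNat

/-- The sieve model: the positive integers without prime factors up to `z` have the weight `∏_{p ≤ z} (1 - 1 / p)⁻¹`,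
the other integers the weight `0`. -/
noncomputable def model (z : ℕ) (n : ℤ) : ℝ :=
  if 1 ≤ n ∧ ∀ p ∈ (Icc 1 z).filter Nat.Prime, ¬ p ∣ n.toNat then
    (∏ p ∈ (Icc 1 z).filter Nat.Prime, (1 - 1 / (p : ℝ)))⁻¹ else 0

/-- The sum over the `t ≤ X` in the class `b` modulo `q` of
`θ(t) (∏_i Λ(F i (t) + c i) - ∏_i model(F i (t) + c i))`. -/
noncomputable def classError {k : ℕ} (z : ℕ) (θ : ℕ → ℝ) (F : Fin k → ℤ[X]) (c : Fin k → ℤ) (q b X : ℕ) : ℝ :=
  ∑ t ∈ (Icc 1 X).filter (fun t => t % q = b),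
    θ t * (∏ i, vM ((F i).eval (t : ℤ) + c i) - ∏ i, model z ((F i).eval (t : ℤ) + c i))

/-- The modulus `q` is bad: for some lengths `Y b ≤ x`, the sum over all classes `b` modulo `q` of the absolute values of
the differences, over the `t ≤ Y b` in the class, of the weighted number of prime values and its sieve model is larger
than `x / log ^ U x`. -/
def Bad (U x z : ℕ) {k : ℕ} (θ : ℕ → ℝ) (F : Fin k → ℤ[X]) (c : Fin k → ℤ) (q : ℕ) : Prop :=
  ∃ Y : ℕ → ℕ, (∀ b, Y b ≤ x) ∧ x / Real.log x ^ U < ∑ b ∈ range q, |classError z θ F c q b (Y b)|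

/-- For every `Q ≤ x / log ^ A x`, every set of pairwise coprime bad moduli `q ≤ Q` has at most
`log ^ A x (1 + Q ^ 2 / x)` elements. -/
def FewBad (A U x z : ℕ) {k : ℕ} (θ : ℕ → ℝ) (F : Fin k → ℤ[X]) (c : Fin k → ℤ) : Prop :=
  ∀ Q : ℕ, Q * Real.log x ^ A ≤ x → ∀ M : Finset ℕ, (∀ q ∈ M, 1 ≤ q ∧ q ≤ Q) →
    (∀ q ∈ M, ∀ q' ∈ M, q ≠ q' → Nat.Coprime q q') → (∀ q ∈ M, Bad U x z θ F c q) →
    (M.card : ℝ) ≤ Real.log x ^ A * (1 + (Q : ℝ) ^ 2 / x)

lemma pd_eq {k : ℕ} (z : ℕ) (F : Fin k → ℤ[X]) (a : Fin k → ℤ) (c : Fin k → ℕ) (t : ℕ) :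
    Pool.Agent.Run7.h17.PB.pd z (fun i t => a i + (F i).eval (t : ℤ)) c t =
      ∏ i, vM ((F i).eval (t : ℤ) + (a i + c i)) - ∏ i, model z ((F i).eval (t : ℤ) + (a i + c i)) := by
  unfold Pool.Agent.Run7.h17.PB.pd
  have e : ∀ i, a i + (F i).eval (t : ℤ) + (c i : ℤ) = (F i).eval (t : ℤ) + (a i + c i) := fun i => by ring
  simp_rw [e]
  congr 1
  · refine prod_congr rfl fun i _ => ?_
    unfold Pool.Agent.H373R2.T7.lamI vM
    split_ifs with h
    · rfl
    · have : ((F i).eval (t : ℤ) + (a i + c i)).toNat = 0 := Int.toNat_of_nonpos (by omega)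
      rw [this]
      simp
  · refine prod_congr rfl fun i _ => ?_
    unfold Pool.Agent.H373R2.T7.lamzI Pool.Agent.H373R2.T7.lamz model
    by_cases h : 1 ≤ (F i).eval (t : ℤ) + (a i + c i)
    · rw [if_pos h]
      by_cases h2 : ∀ p ∈ Pool.Agent.H373R2.T7.pz z, ¬ p ∣ ((F i).eval (t : ℤ) + (a i + c i)).toNat
      · rw [if_pos h2, if_pos ⟨h, h2⟩]
        rfl
      · rw [if_neg h2, if_neg (fun h3 => h2 h3.2)]
    · rw [if_neg h, if_neg (fun h3 => h h3.1)]

lemma classError_eq {k : ℕ} (z : ℕ) (θ : ℕ → ℝ) (F : Fin k → ℤ[X]) (a : Fin k → ℤ) (c : Fin k → ℕ) (q b X : ℕ) :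
    classError z θ F (fun i => a i + c i) q b X =
    ∑ t ∈ Icc 1 X, if t % q = b then
      θ t * Pool.Agent.Run7.h17.PB.pd z (fun i t => a i + (F i).eval (t : ℤ)) c t else 0 := by
  unfold classError
  rw [sum_filter]
  refine sum_congr rfl fun t _ => ?_
  rw [pd_eq]

open Classical in
/-- Let nonconstant integer polynomials `F 1, ..., F k` and `B, κ, U` be fixed. There are `A` and `B₀` such that for all `E`
and all large `x` the following holds for all integers `M i` between `x ^ deg (F i) / B` and `B x ^ deg (F i)`, all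
integers `a i` with `|a i| ≤ B M i`, all `z` between `log ^ B₀ x` and `log ^ E x`, and all families of at most `log ^ κ x`
weights `θ l`, bounded by `log ^ κ x` on `[1, x]`. For all vectors `(a i + c i)_i`, `1 ≤ c i ≤ M i`, of constant terms but
at most the proportion `1 / log ^ U x` of them, for all `l`: for all `Q ≤ x / log ^ A x`,
every set of pairwise coprime moduli `q ≤ Q` which are bad for the sums of `θ l (t) ∏_i Λ(F i (t) + a i + c i)` over the
classes modulo `q` has at most `log ^ A x (1 + Q ^ 2 / x)` elements. -/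
theorem result (k : ℕ) (F : Fin k → ℤ[X]) (hF : ∀ i, 1 ≤ (F i).natDegree) (B κ U : ℕ) :
    ∃ A B₀ : ℕ, ∀ E : ℕ, ∃ x₀ : ℕ, ∀ x : ℕ, x₀ ≤ x → ∀ M : Fin k → ℕ,
    (∀ i, x ^ (F i).natDegree ≤ B * M i ∧ M i ≤ B * x ^ (F i).natDegree) → ∀ a : Fin k → ℤ, (∀ i, |a i| ≤ B * M i) →
    ∀ z : ℕ, Real.log x ^ B₀ ≤ z → (z : ℝ) ≤ Real.log x ^ E →
    ∀ L : ℕ, (L : ℝ) ≤ Real.log x ^ κ → ∀ θ : Fin L → ℕ → ℝ, (∀ l, ∀ t ∈ Icc 1 x, |θ l t| ≤ Real.log x ^ κ) →
    (((Fintype.piFinset (fun i => Icc 1 (M i))).filter (fun c : Fin k → ℕ =>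
      ¬ ∀ l, FewBad A U x z (θ l) F (fun i => a i + c i))).card : ℝ) ≤ (∏ i, (M i : ℝ)) / Real.log x ^ U := by
  obtain ⟨A, B0, hB0⟩ := Pool.Agent.Run7.h17.PB.poly_copr k F hF B κ U
  refine ⟨A, B0, fun E => ?_⟩
  obtain ⟨x0, h1⟩ := hB0 E
  refine ⟨x0, fun x hx M hM a ha z hz1 hz2 L hL θ hθ => ?_⟩
  refine le_trans (Nat.cast_le.mpr (card_le_card ?_)) (h1 x hx M hM a ha z hz1 hz2 L hL θ hθ)
  intro c hc
  rw [mem_filter] at hc ⊢
  refine ⟨hc.1, fun hgood => hc.2 ?_⟩
  intro l Q hQ Mo hMo hc hbad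
  refine hgood l Q hQ Mo hMo hc ?_
  intro q hq
  obtain ⟨Y, hY, hb⟩ := hbad q hq
  refine ⟨Y, hY, lt_of_lt_of_le hb (le_of_eq ?_)⟩
  refine sum_congr rfl fun b _ => ?_
  rw [classError_eq]

end Pool.Agent.Results.MP_4d57ea_nt.FewCoprimeBadModuli
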