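import Pool.Agent.Run7.h524.MG.Pol

/-!
# The number of primes among random values of a polynomial with a varying constant term has a Gaussian law

Project MK of this run (primes in intervals of length `N ^ (1/3) log ^ C N` with additive characters), its consequence
`Run7.h18.MK.poly_fin` (the number of primes `n + f(k)`, `k ≤ x`, for almost all `n`). New: the singular series of
`n + f` is between two positive constants for all but `η N` of the `n` (second moment), and a Gaussian law for almost all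
choices of the arguments (bounded differences for the empirical characteristic function over `n`).

From Mathlib: `ProbabilityTheory.gaussianReal 0 1`: the standard normal distribution.
-/

set_option autoImplicit false

open Polynomial Finset

namespace Pool.Agent.Results.MP_4d57ea_nt.GaussianLawRandomArguments

/-- The number of the residues `r` modulo `p` for which `p` divides `n + f(r)`. -/
noncomputable def rootCount (f : ℤ[X]) (n : ℤ) (p : ℕ) : ℕ :=
  ((range p).filter (fun r : ℕ => (p : ℤ) ∣ n + f.eval (r : ℤ))).card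

/-- The singular series: the product of `(1 - rootCount / p) / (1 - 1 / p)` over the primes `p ≤ z`. -/
noncomputable def density (f : ℤ[X]) (n : ℤ) (z : ℕ) : ℝ :=
  ∏ p ∈ (Icc 1 z).filter Nat.Prime, (1 - (rootCount f n p : ℝ) / p) / (1 - 1 / (p : ℝ))

/-- The number of the `l` for which `n + f(k_l + 1)` is a prime; the `k_l + 1` are elements of `{1, ..., x}`. -/
noncomputable def hits (f : ℤ[X]) {m x : ℕ} (k : Fin m → Fin x) (n : ℕ) : ℕ :=
  (univ.filter fun l : Fin m => ((n : ℤ) + f.eval (((k l : ℕ) : ℤ) + 1)).toNat.Prime).card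

/-- The distribution function of the standard normal law. -/
noncomputable def Phi (u : ℝ) : ℝ := (ProbabilityTheory.gaussianReal 0 1).real (Set.Iic u)

open Classical in
/-- Let `f` be an integer polynomial of degree at least `2` (for example `f(m) = m ^ 3`), `A` and `B` integers and
`ε > 0`. There are `C`, `B₀`, `K` and `δ > 0` such that for every `E` and all large `N`, all `z` between `log ^ B₀ N` and
`log ^ E N`, all `x` with `N ^ (1/3) log ^ C N ≤ x ^ deg f ≤ N / log ^ C N`, all sets `J` of at least `N / B` integers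
`n ∈ [1, N]` for which no prime divides all the values of `n + f`, and all integers `m` with
`K log N ≤ m ≤ log ^ A N`: for all but at most `N ^ (-δ) x ^ m` of the `m`-tuples `k_1, ..., k_m` of integers in
`[1, x]`, the proportion of the `n ∈ J` for which at most `m r_n + u √(m r_n)` of the `m` integers
`n + f(k_1), ..., n + f(k_m)` are primes, `r_n = density f n z / log n`, is `Φ(u) ± ε` for all real `u` at once. -/
theorem result (f : ℤ[X]) (hf : 2 ≤ f.natDegree) (A B : ℕ) (hB : 1 ≤ B) (ε : ℝ) (hε : 0 < ε) :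
    ∃ (C B₀ K : ℕ) (δ : ℝ), 0 < δ ∧ ∀ E : ℕ, ∃ N₀ : ℕ, ∀ N : ℕ, N₀ ≤ N → ∀ z : ℕ,
    Real.log N ^ B₀ ≤ z → (z : ℝ) ≤ Real.log N ^ E → ∀ x : ℕ,
    (N : ℝ) ^ (1 / 3 : ℝ) * Real.log N ^ C ≤ (x : ℝ) ^ f.natDegree → (x : ℝ) ^ f.natDegree * Real.log N ^ C ≤ N →
    ∀ J : Finset ℕ, J ⊆ Icc 1 N → N ≤ B * J.card →
    (∀ n ∈ J, ∀ p : ℕ, p.Prime → ∃ k : ℤ, ¬ (p : ℤ) ∣ (n : ℤ) + f.eval k) →
    ∀ m : ℕ, K * Real.log N ≤ m → (m : ℝ) ≤ Real.log N ^ A →
    ((univ.filter fun k : Fin m → Fin x => ¬ ∀ u : ℝ,
      |((J.filter fun n : ℕ => (hits f k n : ℝ) ≤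
        m * (density f n z / Real.log n) + u * √(m * (density f n z / Real.log n))).card : ℝ) / J.card - Phi u| ≤ ε).card : ℝ) ≤
      (N : ℝ) ^ (-δ) * (x : ℝ) ^ m := by
  obtain ⟨C, B₀, K, δ, hδ, h⟩ := Pool.Agent.Run7.h524.MG.gau_poly f (by omega) A B hB ε hε
  refine ⟨C, B₀, K, δ, hδ, fun E => ?_⟩
  obtain ⟨N₀, h⟩ := h E
  refine ⟨N₀, fun N hN z hz1 hz2 x hx1 hx2 J hJ hJB hfix m hm1 hm2 => ?_⟩
  have h2 := h N hN z hz1 hz2 x hx1 hx2 J hJ hJB hfix m hm1 hm2
  refine le_trans (Nat.cast_le.2 (card_le_card fun ω hω => ?_)) h2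
  rw [mem_filter] at hω ⊢
  refine ⟨hω.1, fun h3 => hω.2 fun u => ?_⟩
  have h4 := h3 u
  unfold Pool.Agent.Run7.h524.MG.Phi Pool.Agent.Run7.h524.MG.dens Pool.Agent.Run7.h524.MG.nu at h4
  unfold hits density rootCount Phi
  convert h4

end Pool.Agent.Results.MP_4d57ea_nt.GaussianLawRandomArguments
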