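import Mathlib
import Pool.Agent.Run7.h373.QE.E3c

/-!
# The Bateman-Horn formula for `F(m) + k` in almost all windows of length `T log N`

Let `F` be an integer polynomial of degree `d ≥ 3` (for instance `F = x³`) with a bounded leading coefficient; the
other coefficients are arbitrary. Let `I` be ANY interval of integers with `|F| ≤ A N` on `I` and with at least
`N^(1/(3(d-1))) (log N)^B` integers (`N^(1/6) (log N)^B` for `F = x³`). For almost all pairs `(k, b)` with `|k| ≤ N`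
and `b` in `I`, the number of the primes `F(m) + k` with `m` in the window `(b, b + H]` is given by the formula of
Bateman and Horn, already for windows with only `H = T log N` integers, `T` a constant, in which the formula predicts
a bounded number of primes; `T → ∞` as the admitted error `ε → 0`. This is the optimal order of the length, as the
predicted number of primes must be large for an asymptotic formula. For `F = x³` there is no local obstruction, so
for almost all `(k, b)` with `|b| ≤ (k - ε N)^(1/3)` the window contains about `S H / log N` of the `m` with `m³ + k`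
prime.

Proof. The second moment over `k` and `b` of the sum over the window of the difference between the primes and their
sieve model is opened: the diagonal terms are bounded by the number of primes; the off-diagonal ones are the values
at `F(x + i) - F(x + j)`, a polynomial of degree `d - 1` in `x`, of the autocorrelation of that difference; the sum of
these over an interval of length `L` is bounded by a second moment over the circle, which an inverse theorem for the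
Weyl sums of degree `d - 1` and the distribution of primes and of their model in almost all intervals of length
`L^(d-1) / (log N)^B ≥ N^(1/3)`, twisted by additive characters, control. The difference between the sieve models with
the levels `(log N)^E` and `(log N)^(1/u)` is treated in the same way, with the average of the products of local
densities over the shifts. The model at the level `(log N)^(1/u)` is summed over the window by the fundamental lemma,
and the tails of the local products are small for almost all `k`, uniformly in `F`, by a dual large sieve argument.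
-/

set_option autoImplicit false

namespace Pool.Agent.Results.MP_4d57ea_nt.OptimalScale

open Finset
open Polynomial (X)
open scoped Polynomial

/-- the number of residues `a` modulo `p` such that `p` divides `F(a) + k` -/
def rho (F : ℤ[X]) (k : ℤ) (p : ℕ) : ℕ := #((range p).filter (fun a : ℕ => (p : ℤ) ∣ F.eval (a : ℤ) + k))

/-- the product of `(p - rho(p)) / (p - 1)` over the primes `p ≤ z` -/
noncomputable def S (F : ℤ[X]) (k : ℤ) (z : ℕ) : ℝ :=
  ∏ p ∈ (range (z + 1)).filter Nat.Prime, ((p : ℝ) - rho F k p) / ((p : ℝ) - 1)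

/-- the number of the integers `a < m ≤ b` such that `s (F(m) + k)` is a (positive) prime -/
noncomputable def P (F : ℤ[X]) (s k a b : ℤ) : ℕ := #((Ioc a b).filter (fun m : ℤ => Nat.Prime (s * (F.eval m + k)).toNat))

/-- the sum of `1 / log (s (F(m) + k))` over the integers `a < m ≤ b` with `s (F(m) + k) ≥ 2` -/
noncomputable def M (F : ℤ[X]) (s k a b : ℤ) : ℝ :=
  ∑ m ∈ (Ioc a b).filter (fun m : ℤ => 2 ≤ s * (F.eval m + k)), 1 / Real.log ((s * (F.eval m + k) : ℤ) : ℝ)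

lemma rho_eq (F : ℤ[X]) (k : ℤ) (p : ℕ) : rho F k p = Pool.Agent.TH204.WR.rho F k p := rfl

lemma rho_lt (F : ℤ[X]) (k : ℤ) (p : ℕ) (hp : p.Prime) (h : ∃ m : ℤ, ¬ (p : ℤ) ∣ F.eval m + k) :
    Pool.Agent.TH204.WR.rho F k p < p := by
  obtain ⟨m, hm⟩ := h
  have hp0 : (0 : ℤ) < p := by exact_mod_cast hp.pos
  unfold Pool.Agent.TH204.WR.rho
  have hlt : (m % p).toNat < p := by
    have h1 := Int.emod_nonneg m hp0.ne'
    have h2 := Int.emod_lt_of_pos m hp0
    omega
  have hcast : (((m % p).toNat : ℕ) : ℤ) = m % p := Int.toNat_of_nonneg (Int.emod_nonneg m hp0.ne')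
  have hss : (range p).filter (fun a : ℕ => (p : ℤ) ∣ F.eval (a : ℤ) + k) ⊂ range p := by
    rw [filter_ssubset]
    refine ⟨(m % p).toNat, mem_range.2 hlt, ?_⟩
    intro hd
    rw [hcast] at hd
    apply hm
    have h1 : (p : ℤ) ∣ m - m % p := Int.dvd_self_sub_emod
    have h2 : (m - m % p) ∣ F.eval m - F.eval (m % p) := Polynomial.sub_dvd_eval_sub m (m % p) F
    have h3 := dvd_add (h1.trans h2) hd
    have e : F.eval m - F.eval (m % p) + (F.eval (m % p) + k) = F.eval m + k := by ring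
    rwa [e] at h3
  have := card_lt_card hss
  rwa [card_range] at this

lemma S_eq (F : ℤ[X]) (k : ℤ) (z : ℕ) : S F k z = Pool.Agent.TH204.WR.hh F k z := by
  unfold S Pool.Agent.TH204.WR.hh Pool.Agent.H373R2.T7.Vz
  rw [← prod_inv_distrib, ← prod_mul_distrib]
  have hs : (range (z + 1)).filter Nat.Prime = Pool.Agent.H373R2.T7.pz z := by
    ext p
    unfold Pool.Agent.H373R2.T7.pz
    rw [mem_filter, mem_filter, mem_range, mem_Icc]
    constructor
    · rintro ⟨h1, h2⟩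
      exact ⟨⟨h2.one_le, by omega⟩, h2⟩
    · rintro ⟨⟨h1, h3⟩, h2⟩
      exact ⟨by omega, h2⟩
  rw [hs]
  apply prod_congr rfl
  intro p hp
  unfold Pool.Agent.H373R2.T7.pz at hp
  have hp2 := (mem_filter.1 hp).2.two_le
  have hpr : (2 : ℝ) ≤ p := by exact_mod_cast hp2
  have h1 : (p : ℝ) ≠ 0 := by linarith
  have h2 : (p : ℝ) - 1 ≠ 0 := by linarith
  have h3 : (1 : ℝ) - 1 / p ≠ 0 := by
    rw [one_sub_div h1]
    exact div_ne_zero h2 h1
  rw [rho_eq]
  field_simp

/-- the integers of a window -/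
lemma win_sum {α : Type*} [AddCommMonoid α] (a : ℤ) (H : ℕ) (g : ℤ → α) :
    ∑ m ∈ Ioc a (a + H), g m = ∑ i ∈ Ioc 0 H, g (a + (i : ℤ)) := by
  refine sum_nbij' (fun m => (m - a).toNat) (fun i => a + (i : ℤ)) ?_ ?_ ?_ ?_ ?_
  · intro m hm
    rw [mem_Ioc] at hm ⊢
    omega
  · intro i hi
    rw [mem_Ioc] at hi ⊢
    omega
  · intro m hm
    rw [mem_Ioc] at hm
    omega
  · intro i hi
    omega
  · intro m hm
    rw [mem_Ioc] at hm
    congr 1
    omega

lemma vv_eq (F : ℤ[X]) (a b : ℤ) (i : ℕ) (h : a ≤ b) : Run7.h373.QD.vv F a ((b - a).toNat + i) = F.eval (b + (i : ℤ)) := by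
  unfold Run7.h373.QD.vv
  congr 1
  push_cast
  rw [Int.toNat_of_nonneg (by omega)]
  ring

lemma P_eq (F : ℤ[X]) (s k a b : ℤ) (h : a ≤ b) (H : ℕ) : P F s k b (b + H) =
    Run7.h373.QE.pS s (fun i => Run7.h373.QD.vv F a ((b - a).toNat + i) + k) H := by
  unfold P Run7.h373.QE.pS
  rw [card_filter, card_filter, win_sum]
  refine sum_congr rfl fun i _ => ?_
  simp only [vv_eq F a b i h]

lemma M_eq (F : ℤ[X]) (s k a b : ℤ) (h : a ≤ b) (H : ℕ) : M F s k b (b + H) =
    Run7.h373.QE.wS s (fun i => Run7.h373.QD.vv F a ((b - a).toNat + i) + k) H := by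
  unfold M Run7.h373.QE.wS
  rw [sum_filter, sum_filter, win_sum]
  refine sum_congr rfl fun i _ => ?_
  simp only [vv_eq F a b i h]
  by_cases h : 2 ≤ s * (F.eval (b + (i : ℤ)) + k)
  · rw [if_pos h, if_pos h]
    unfold Pool.Agent.TH892.SW.wt
    have h1 : (((s * (F.eval (b + (i : ℤ)) + k)).toNat : ℕ) : ℤ) = s * (F.eval (b + (i : ℤ)) + k) :=
      Int.toNat_of_nonneg (by omega)
    have h2 : (((s * (F.eval (b + (i : ℤ)) + k)).toNat : ℕ) : ℝ) = ((s * (F.eval (b + (i : ℤ)) + k) : ℤ) : ℝ) := by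
      rw [← Int.cast_natCast, h1]
    rw [h2]
  · rw [if_neg h, if_neg h]

/-- the general statement -/
theorem main (d : ℕ) (hd : 3 ≤ d) (A : ℕ) (ε : ℝ) (hε : 0 < ε) : ∃ T : ℝ, 0 < T ∧ ∃ B X₀ : ℕ, ∀ N : ℕ, X₀ ≤ N →
    ∀ F : ℤ[X], F.natDegree = d → |(F.leadingCoeff : ℝ)| ≤ A → ∀ (a : ℤ) (L H : ℕ),
    (N : ℝ) ^ (1 / (3 * ((d : ℝ) - 1))) * Real.log N ^ B ≤ L → T * Real.log N ≤ H →
    (∀ m ∈ Ioc a (a + L + H), |((F.eval m : ℤ) : ℝ)| ≤ A * N) →
    ∃ Bad ⊆ Icc (-(N : ℤ)) N ×ˢ Ico a (a + L), (#Bad : ℝ) ≤ ε * (N * L) ∧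
    ∀ k ∈ Icc (-(N : ℤ)) N, ∀ b ∈ Ico a (a + L), (k, b) ∉ Bad →
    (∀ p : ℕ, p.Prime → ∃ m : ℤ, ¬ (p : ℤ) ∣ F.eval m + k) →
    ∀ z : ℕ, Real.log N ^ B ≤ z → z ^ 3 ≤ N → 0 < S F k z ∧
    ∀ s : ℤ, (s = 1 ∨ s = -1) →
      |(P F s k b (b + H) : ℝ) - S F k z * M F s k b (b + H)| ≤ ε * (S F k z * (H / Real.log N)) := by
  obtain ⟨T, hT, B, X₀, h0⟩ := Run7.h373.QE.ee d (by omega) A ε hε
  refine ⟨T, hT, B, X₀, fun N hN F hF hFl a L H hL hH hv => ?_⟩
  obtain ⟨Bad, k1, k2, k3⟩ := h0 N hN F hF hFl a L H hL hH (by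
    intro i hi
    rw [mem_Ioc] at hi
    exact hv (a + i) (by rw [mem_Ioc]; omega))
  refine ⟨Bad.image (fun p => (p.1, a + (p.2 : ℤ))), ?_, ?_, ?_⟩
  · intro p hp
    rw [mem_image] at hp
    obtain ⟨q, hq, rfl⟩ := hp
    have h1 := k1 hq
    rw [mem_product, mem_range] at h1
    rw [mem_product, mem_Ico]
    exact ⟨h1.1, by simp only; omega, by simp only; omega⟩
  · have h1 : (#(Bad.image (fun p => (p.1, a + (p.2 : ℤ)))) : ℝ) ≤ #Bad := by exact_mod_cast card_image_le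
    exact h1.trans k2
  · intro k hk b hb hkb hadm z hz1 hz2
    rw [mem_Ico] at hb
    obtain ⟨m1, m2⟩ := k3 k hk (b - a).toNat (by rw [mem_range]; omega) (by
      intro hc
      apply hkb
      rw [mem_image]
      refine ⟨_, hc, ?_⟩
      simp only
      rw [Int.toNat_of_nonneg (by omega), add_sub_cancel]) (fun p hp => rho_lt F k p hp (hadm p hp)) z hz1 hz2
    rw [S_eq]
    refine ⟨m1, fun s hs => ?_⟩
    rw [P_eq F s k a b hb.1, M_eq F s k a b hb.1]
    exact m2 s hs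

/-- no local obstruction for cubes -/
lemma cube_adm (k : ℤ) (p : ℕ) (hp : p.Prime) : ∃ m : ℤ, ¬ (p : ℤ) ∣ (X ^ 3 : ℤ[X]).eval m + k := by
  by_cases h : (p : ℤ) ∣ k
  · refine ⟨1, fun hc => ?_⟩
    rw [Polynomial.eval_pow, Polynomial.eval_X, one_pow] at hc
    have h1 : (p : ℤ) ∣ 1 := by
      have := dvd_sub hc h
      rwa [add_sub_cancel_right] at this
    have h2 : (p : ℤ) = 1 := by
      have := Int.le_of_dvd (by norm_num) h1
      have := hp.two_le
      omega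
    have := hp.two_le
    omega
  · refine ⟨0, fun hc => h ?_⟩
    rw [Polynomial.eval_pow, Polynomial.eval_X] at hc
    simpa using hc

/-- the case of the cubes -/
theorem cubes (A : ℕ) (ε : ℝ) (hε : 0 < ε) : ∃ T : ℝ, 0 < T ∧ ∃ B X₀ : ℕ, ∀ N : ℕ, X₀ ≤ N → ∀ (a : ℤ) (L H : ℕ),
    (N : ℝ) ^ ((1 : ℝ) / 6) * Real.log N ^ B ≤ L → T * Real.log N ≤ H → |(a : ℝ)| + L + H ≤ A * (N : ℝ) ^ ((1 : ℝ) / 3) →
    ∃ Bad ⊆ Icc (-(N : ℤ)) N ×ˢ Ico a (a + L), (#Bad : ℝ) ≤ ε * (N * L) ∧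
    ∀ k ∈ Icc (-(N : ℤ)) N, ∀ b ∈ Ico a (a + L), (k, b) ∉ Bad → ∀ z : ℕ, Real.log N ^ B ≤ z → z ^ 3 ≤ N →
      0 < S (X ^ 3) k z ∧
      |(#((Ioc b (b + H)).filter (fun m : ℤ => Nat.Prime (m ^ 3 + k).toNat)) : ℝ) -
        S (X ^ 3) k z * ∑ m ∈ (Ioc b (b + H)).filter (fun m : ℤ => 2 ≤ m ^ 3 + k), 1 / Real.log ((m ^ 3 + k : ℤ) : ℝ)| ≤
      ε * (S (X ^ 3) k z * (H / Real.log N)) := by
  obtain ⟨T, hT, B, X₀, h0⟩ := main 3 le_rfl (A ^ 3 + 1) ε hε
  refine ⟨T, hT, B, X₀, fun N hN a L H hL hH hv => ?_⟩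
  have hdeg : (X ^ 3 : ℤ[X]).natDegree = 3 := by rw [Polynomial.natDegree_X_pow]
  have hlc : (X ^ 3 : ℤ[X]).leadingCoeff = 1 := Polynomial.leadingCoeff_X_pow 3
  obtain ⟨Bad, k1, k2, k3⟩ := h0 N hN (X ^ 3) hdeg (by
      rw [hlc]
      simp only [Int.cast_one, abs_one]
      push_cast
      have : (0 : ℝ) ≤ (A : ℝ) ^ 3 := by positivity
      linarith) a L H (by
      refine le_trans (le_of_eq ?_) hL
      norm_num) hH (by
      intro m hm
      rw [mem_Ioc] at hm
      rw [Polynomial.eval_pow, Polynomial.eval_X]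
      push_cast
      rw [abs_pow]
      have h2 : |(m : ℝ)| ≤ A * (N : ℝ) ^ ((1 : ℝ) / 3) := by
        refine le_trans ?_ hv
        have h3 : (a : ℝ) ≤ m := by exact_mod_cast hm.1.le
        have h4 : (m : ℝ) ≤ a + L + H := by exact_mod_cast hm.2
        have h5 := neg_abs_le (a : ℝ)
        have h6 := le_abs_self (a : ℝ)
        have h7 : (0 : ℝ) ≤ H := Nat.cast_nonneg _
        have h8 : (0 : ℝ) ≤ L := Nat.cast_nonneg _
        rw [abs_le]
        constructor <;> linarith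
      have h3 : (A * (N : ℝ) ^ ((1 : ℝ) / 3)) ^ 3 = A ^ 3 * N := by
        rw [mul_pow, ← Real.rpow_natCast ((N : ℝ) ^ ((1 : ℝ) / 3)), ← Real.rpow_mul (Nat.cast_nonneg _)]
        norm_num
      have h4 : (0 : ℝ) ≤ N := Nat.cast_nonneg _
      calc |(m : ℝ)| ^ 3 ≤ (A * (N : ℝ) ^ ((1 : ℝ) / 3)) ^ 3 := pow_le_pow_left₀ (abs_nonneg _) h2 3
        _ = A ^ 3 * N := h3
        _ ≤ (A ^ 3 + 1) * N := by nlinarith)
  refine ⟨Bad, k1, k2, fun k hk b hb hkb z hz1 hz2 => ?_⟩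
  obtain ⟨m1, m2⟩ := k3 k hk b hb hkb (fun p hp => cube_adm k p hp) z hz1 hz2
  refine ⟨m1, ?_⟩
  have h2 := m2 1 (Or.inl rfl)
  unfold P M at h2
  simp only [Polynomial.eval_pow, Polynomial.eval_X, one_mul] at h2
  exact h2

/-- **The Bateman-Horn formula in almost all windows of length `T log N`.**
(1) Let `d ≥ 3`, `A ≥ 0` and `ε > 0`. There are `T > 0`, `B` and `X₀` such that the following holds for `N ≥ X₀`, for
every integer polynomial `F` of degree `d` with a leading coefficient of absolute value at most `A`, for every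
integer `a` and all `L ≥ N^(1/(3(d-1))) (log N)^B` and `H ≥ T log N` such that `|F| ≤ A N` on `(a, a + L + H]`. For
all but at most `ε N L` of the pairs `(k, b)` with `|k| ≤ N` and `a ≤ b < a + L`: if no prime divides all the values
of `F + k`, then for all `z` with `(log N)^B ≤ z ≤ N^(1/3)` the product `S F k z` is positive and for `s = 1` and
`s = -1` the number of the `m` of the window `(b, b + H]` with `s (F(m) + k)` prime differs from
`S F k z ∑ 1 / log (s (F(m) + k))` (over the `m` of the window with `s (F(m) + k) ≥ 2`) by at most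
`ε S F k z H / log N`.
(2) The case `F = x³`, where every `k` is admissible: `L ≥ N^(1/6) (log N)^B` and `|a| + L + H ≤ A N^(1/3)`. -/
theorem result :
    (∀ d : ℕ, 3 ≤ d → ∀ A : ℕ, ∀ ε : ℝ, 0 < ε → ∃ T : ℝ, 0 < T ∧ ∃ B X₀ : ℕ, ∀ N : ℕ, X₀ ≤ N →
      ∀ F : ℤ[X], F.natDegree = d → |(F.leadingCoeff : ℝ)| ≤ A → ∀ (a : ℤ) (L H : ℕ),
      (N : ℝ) ^ (1 / (3 * ((d : ℝ) - 1))) * Real.log N ^ B ≤ L → T * Real.log N ≤ H →
      (∀ m ∈ Ioc a (a + L + H), |((F.eval m : ℤ) : ℝ)| ≤ A * N) →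
      ∃ Bad ⊆ Icc (-(N : ℤ)) N ×ˢ Ico a (a + L), (#Bad : ℝ) ≤ ε * (N * L) ∧
      ∀ k ∈ Icc (-(N : ℤ)) N, ∀ b ∈ Ico a (a + L), (k, b) ∉ Bad →
      (∀ p : ℕ, p.Prime → ∃ m : ℤ, ¬ (p : ℤ) ∣ F.eval m + k) →
      ∀ z : ℕ, Real.log N ^ B ≤ z → z ^ 3 ≤ N → 0 < S F k z ∧
      ∀ s : ℤ, (s = 1 ∨ s = -1) →
        |(P F s k b (b + H) : ℝ) - S F k z * M F s k b (b + H)| ≤ ε * (S F k z * (H / Real.log N))) ∧
    (∀ A : ℕ, ∀ ε : ℝ, 0 < ε → ∃ T : ℝ, 0 < T ∧ ∃ B X₀ : ℕ, ∀ N : ℕ, X₀ ≤ N → ∀ (a : ℤ) (L H : ℕ),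
      (N : ℝ) ^ ((1 : ℝ) / 6) * Real.log N ^ B ≤ L → T * Real.log N ≤ H → |(a : ℝ)| + L + H ≤ A * (N : ℝ) ^ ((1 : ℝ) / 3) →
      ∃ Bad ⊆ Icc (-(N : ℤ)) N ×ˢ Ico a (a + L), (#Bad : ℝ) ≤ ε * (N * L) ∧
      ∀ k ∈ Icc (-(N : ℤ)) N, ∀ b ∈ Ico a (a + L), (k, b) ∉ Bad → ∀ z : ℕ, Real.log N ^ B ≤ z → z ^ 3 ≤ N →
        0 < S (X ^ 3) k z ∧
        |(#((Ioc b (b + H)).filter (fun m : ℤ => Nat.Prime (m ^ 3 + k).toNat)) : ℝ) -
          S (X ^ 3) k z * ∑ m ∈ (Ioc b (b + H)).filter (fun m : ℤ => 2 ≤ m ^ 3 + k), 1 / Real.log ((m ^ 3 + k : ℤ) : ℝ)| ≤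
        ε * (S (X ^ 3) k z * (H / Real.log N))) :=
  ⟨main, cubes⟩

end Pool.Agent.Results.MP_4d57ea_nt.OptimalScale
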